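import Pool.Agent.CwTw.GMain
import Pool.Agent.CwTw.Split

set_option autoImplicit false

/-!
# Classes generated by definable laminar relations and a weakly sparse graph
-/

namespace Pool.Agent.Results.MP_81ae54_co.LaminarCriterion

open Pool.Agent.CwTw FirstOrder FirstOrder.Language

/-- For all formulas `lam i`, `sig` and all `t` there are a non-copying transduction `T` and a
number `s` such that every hereditary class `C`, all of whose members without a split are
generated by the relations defined by the `lam i`, which have to be laminar, and by the
`K_{t,t}`-free graph defined by `sig`, has bounded cliquewidth or a hereditary class of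
`K_{s,s}`-free graphs of unbounded treewidth inside `T(C)`. -/
theorem result {c m : ℕ} (t : ℕ) (lam : Fin m → (gLang c).Formula (Fin 2))
    (sig : (gLang c).Formula (Fin 2)) :
    ∃ (T : Transduction) (s : ℕ), T.copies = 1 ∧ ∀ C : GraphClass, Hereditary C →
      (∀ n, ∀ G ∈ C n, SplitPrime G → LamGen G t lam sig) → Dichotomy T s C := by
  obtain ⟨T, s, hT, h⟩ := lamGen_dichotomy t lam sig
  exact ⟨T, s, hT, fun C hC hG => dichotomy_of_splitPrime hC
    (h _ fun n G hG' => hG n G hG'.1 hG'.2)⟩

end Pool.Agent.Results.MP_81ae54_co.LaminarCriterion
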