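import Pool.Agent.CwTw.GLam
import Pool.Agent.CwTw.Split
import Pool.Agent.CwTw.Families
import Pool.Agent.CwTw.IntClique
import Pool.Agent.CwTw.Cochrom

set_option autoImplicit false

/-!
# Families of graphs with laminar partitions
-/

namespace Pool.Agent.Results.MP_81ae54_co.LaminarFamilies

open Pool.Agent.CwTw

/-- For all `k` and `t` there are a non-copying transduction `T` and a number `s` such that every
hereditary class `C`, each of whose members without a split has a laminar `(k, t)`-partition or
belongs to one of the families of parameter `k`, has bounded cliquewidth or a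
hereditary class of `K_{s,s}`-free graphs of unbounded treewidth inside `T(C)`. -/
theorem result (k t : ℕ) :
    ∃ (T : Transduction) (s : ℕ), T.copies = 1 ∧ ∀ C : GraphClass, Hereditary C →
      (∀ n, ∀ G ∈ C n, SplitPrime G → LamPart G k t ∨ ChainComp G k ∨ ChainIncomp G k ∨
        IntervalUnion G k ∨ IntervalNoCliques G k ∨ PermUnion G k ∨ VicinalUnion G k) →
      Dichotomy T s C := by
  obtain ⟨N1, h1⟩ := lamPart_of_intervals k
  obtain ⟨N2, h2⟩ := lamPart_of_vicinal k
  obtain ⟨N3, h3⟩ := lamPart_of_intervals (k * k)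
  obtain ⟨N4, h4⟩ := lamPart_of_perm k
  let N := max (max k (spn k)) (max (max N1 N4) (max N2 N3))
  obtain ⟨T, s, hT, h⟩ := lamPart_dichotomy N t
  refine ⟨T, s, hT, fun C hC hG => dichotomy_of_splitPrime hC (h _ fun n G hG' => ?_)⟩
  rcases hG n G hG'.1 hG'.2 with h5 | ⟨P, c, h5, h6⟩ | ⟨P, c, h5, h6⟩ | h5 | h5 |
    ⟨p, q, c, h5, h6, h7, h8⟩ | h5
  · exact lamPart_mono (by omega) h5
  · exact lamPart_mono (by omega) (lamPart_of_chains P G h5 c h6 t)
  · exact lamPart_mono (by omega) (lamPart_of_cochains P G h5 c h6 t)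
  · exact lamPart_mono (by omega) (h1 _ G h5 t)
  · exact lamPart_mono (by omega) (h3 _ G (intervalUnion_of_noCliques h5) t)
  · exact lamPart_mono (by omega) (h4 _ G p q t c ⟨h5, h6, h7⟩ fun a => (h8 a).symm)
  · exact lamPart_mono (by omega) (h2 _ G h5 t)

end Pool.Agent.Results.MP_81ae54_co.LaminarFamilies
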